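import Mathlib

set_option autoImplicit false

namespace Pool.Agent.Results.MP_c3bf79_al.NotUnique

/-- A ℤ-graded module over the divided power algebra `D` (basis `x^[0], x^[1], ...`,
`x^[m] x^[n] = binom (m+n) m x^[m+n]`) over `ℤ`: abelian groups `M_i` (`i : ℤ`) with additive maps
`x^[n] : M_i → M_{i+n}`. The equation `i + n = j` names the target degree. -/
structure GrMod where
  carrier : ℤ → Type
  grp : ∀ i, AddCommGroup (carrier i)
  act : ∀ (n : ℕ) (i j : ℤ), i + n = j → carrier i → carrier j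
  act_add : ∀ (n : ℕ) (i j : ℤ) (h : i + n = j) (x y : carrier i),
    act n i j h (x + y) = act n i j h x + act n i j h y
  act_zero : ∀ (i : ℤ) (h : i + (0 : ℕ) = i) (x : carrier i), act 0 i i h x = x
  act_act : ∀ (m n : ℕ) (i j k : ℤ) (h : i + n = j) (h' : j + m = k)
    (h'' : i + (m + n : ℕ) = k) (x : carrier i),
    act m j k h' (act n i j h x) = (Nat.choose (m + n) m) • act (m + n) i k h'' x

instance instGrp (M : GrMod) (i : ℤ) : AddCommGroup (M.carrier i) := M.grp i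

/-- Degree-preserving `D`-linear maps. -/
structure GrHom (M N : GrMod) where
  map : ∀ i : ℤ, M.carrier i → N.carrier i
  map_add : ∀ (i : ℤ) (x y : M.carrier i), map i (x + y) = map i x + map i y
  comm : ∀ (n : ℕ) (i j : ℤ) (h : i + n = j) (x : M.carrier i),
    map j (M.act n i j h x) = N.act n i j h (map i x)

/-- `M` and `N` are isomorphic as graded `D`-modules. -/
def Isomorphic (M N : GrMod) : Prop :=
  ∃ f : GrHom M N, ∀ i : ℤ, Function.Bijective (f.map i)

/-- The degree `i` part of `⨁ s, D[-d s]` (`ι` finite): the coefficient family `c` stands for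
`∑ s, c s • x^[i - d s] e_s`, and `c s = 0` when `i < d s`. -/
def freePart {ι : Type} (d : ι → ℤ) (i : ℤ) : AddSubgroup (ι → ℤ) where
  carrier := {c | ∀ s, i < d s → c s = 0}
  zero_mem' := fun _ _ => rfl
  add_mem' := fun ha hb s hs => by
    rw [Pi.add_apply, ha s hs, hb s hs, add_zero]
  neg_mem' := fun ha s hs => by
    rw [Pi.neg_apply, ha s hs, neg_zero]

/-- The degree `i` part of `⨁ s, D[-d s]` as a type (an abelian group under addition of
coefficients). -/
def FreePart {ι : Type} (d : ι → ℤ) (i : ℤ) : Type := freePart d i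

instance instFree {ι : Type} (d : ι → ℤ) (i : ℤ) : AddCommGroup (FreePart d i) :=
  AddSubgroup.toAddCommGroup (freePart d i)

theorem freeAct_mem {ι : Type} (d : ι → ℤ) (m : ℕ) (i j : ℤ) (h : i + m = j)
    (c : FreePart d i) : ∀ s, j < d s → (Nat.choose (j - d s).toNat m : ℤ) * c.1 s = 0 := by
  intro s hs
  have : c.1 s = 0 := c.2 s (by omega)
  rw [this, mul_zero]

/-- multiplication by `x^[m]` on `⨁ s, D[-d s]`, from degree `i` to degree `j = i + m` -/
def freeAct {ι : Type} (d : ι → ℤ) (m : ℕ) (i j : ℤ) (h : i + m = j) (c : FreePart d i) :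
    FreePart d j :=
  ⟨fun s => (Nat.choose (j - d s).toNat m : ℤ) * c.1 s, freeAct_mem d m i j h c⟩

theorem freeAct_add {ι : Type} (d : ι → ℤ) (m : ℕ) (i j : ℤ) (h : i + m = j)
    (x y : FreePart d i) : freeAct d m i j h (x + y) = freeAct d m i j h x + freeAct d m i j h y :=
  Subtype.ext (funext fun _ => mul_add _ _ _)

theorem freeAct_zero {ι : Type} (d : ι → ℤ) (i : ℤ) (h : i + (0 : ℕ) = i)
    (x : FreePart d i) : freeAct d 0 i i h x = x := by
  refine Subtype.ext (funext fun s => ?_)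
  change (Nat.choose (i - d s).toNat 0 : ℤ) * x.1 s = x.1 s
  rw [Nat.choose_zero_right, Nat.cast_one, one_mul]

theorem choose_aux (a m n : ℕ) :
    Nat.choose (a + n + m) m * Nat.choose (a + n) n
      = Nat.choose (m + n) m * Nat.choose (a + n + m) (m + n) := by
  have h := Nat.choose_mul (n := a + n + m) (k := m + n) (s := m) (by omega)
  have e1 : a + n + m - m = a + n := by omega
  have e2 : m + n - m = n := by omega
  rw [e1, e2] at h
  rw [← h, mul_comm]

theorem freeAct_act {ι : Type} (d : ι → ℤ) (m n : ℕ) (i j k : ℤ) (h : i + n = j)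
    (h' : j + m = k) (h'' : i + (m + n : ℕ) = k) (x : FreePart d i) :
    freeAct d m j k h' (freeAct d n i j h x)
      = (Nat.choose (m + n) m) • freeAct d (m + n) i k h'' x := by
  refine Subtype.ext (funext fun s => ?_)
  change (Nat.choose (k - d s).toNat m : ℤ) * ((Nat.choose (j - d s).toNat n : ℤ) * x.1 s)
    = (Nat.choose (m + n) m) • ((Nat.choose (k - d s).toNat (m + n) : ℤ) * x.1 s)
  by_cases hs : i < d s
  · have : x.1 s = 0 := x.2 s hs
    rw [this]
    simp
  · obtain ⟨a, ha⟩ : ∃ a : ℕ, i - d s = a := ⟨(i - d s).toNat, by omega⟩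
    have e1 : (k - d s).toNat = a + n + m := by omega
    have e2 : (j - d s).toNat = a + n := by omega
    rw [e1, e2]
    have := choose_aux a m n
    have h2 : ((Nat.choose (a + n + m) m : ℤ)) * (Nat.choose (a + n) n : ℤ)
      = (Nat.choose (m + n) m : ℤ) * (Nat.choose (a + n + m) (m + n) : ℤ) := by
      exact_mod_cast this
    rw [← mul_assoc, h2, nsmul_eq_mul]
    ring

/-- The graded free module `⨁ s, D[-d s]`. -/
def free {ι : Type} (d : ι → ℤ) : GrMod where
  carrier := FreePart d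
  grp := instFree d
  act := freeAct d
  act_add := freeAct_add d
  act_zero := freeAct_zero d
  act_act := freeAct_act d

/-- `M` is finitely presented: the cokernel of a degree-preserving map between finite direct sums
of shifted free modules `D[-d]`. -/
def IsFinPres (M : GrMod) : Prop :=
  ∃ (ι κ : Type) (_ : Finite ι) (_ : Finite κ) (d : ι → ℤ) (e : κ → ℤ)
    (φ : GrHom (free e) (free d)) (π : GrHom (free d) M),
    (∀ i : ℤ, Function.Surjective (π.map i)) ∧
    (∀ (i : ℤ) (x : (free d).carrier i), π.map i x = 0 ↔ ∃ y, φ.map i y = x)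

/-- The degree `i` part of the truncation `τ_{≥ n}(M)`: all of `M_i` if `i ≥ n`, and `0` if `i < n`. -/
def truncPart (n : ℤ) (M : GrMod) (i : ℤ) : AddSubgroup (M.carrier i) where
  carrier := {x | i < n → x = 0}
  zero_mem' := fun _ => rfl
  add_mem' := fun ha hb h => by
    rw [ha h, hb h, add_zero]
  neg_mem' := fun ha h => by
    rw [ha h, neg_zero]

/-- The degree `i` part of `τ_{≥ n}(M)` as a type. -/
def TruncPart (n : ℤ) (M : GrMod) (i : ℤ) : Type := truncPart n M i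

instance instTrunc (n : ℤ) (M : GrMod) (i : ℤ) : AddCommGroup (TruncPart n M i) :=
  AddSubgroup.toAddCommGroup (truncPart n M i)

theorem act_map_zero (M : GrMod) (n : ℕ) (i j : ℤ) (h : i + n = j) :
    M.act n i j h 0 = 0 := by
  have := M.act_add n i j h 0 0
  rw [add_zero] at this
  exact left_eq_add.mp this

theorem truncAct_mem (n : ℤ) (M : GrMod) (m : ℕ) (i j : ℤ) (h : i + m = j)
    (x : TruncPart n M i) : j < n → M.act m i j h x.1 = 0 := by
  intro hj
  have : x.1 = 0 := x.2 (by omega)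
  rw [this, act_map_zero]

/-- multiplication by `x^[m]` on `τ_{≥ n}(M)`, restricted from `M` -/
def truncAct (n : ℤ) (M : GrMod) (m : ℕ) (i j : ℤ) (h : i + m = j) (x : TruncPart n M i) :
    TruncPart n M j :=
  ⟨M.act m i j h x.1, truncAct_mem n M m i j h x⟩

theorem truncAct_add (n : ℤ) (M : GrMod) (m : ℕ) (i j : ℤ) (h : i + m = j)
    (x y : TruncPart n M i) :
    truncAct n M m i j h (x + y) = truncAct n M m i j h x + truncAct n M m i j h y :=
  Subtype.ext (M.act_add m i j h x.1 y.1)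

theorem truncAct_zero (n : ℤ) (M : GrMod) (i : ℤ) (h : i + (0 : ℕ) = i)
    (x : TruncPart n M i) : truncAct n M 0 i i h x = x :=
  Subtype.ext (M.act_zero i h x.1)

theorem truncAct_act (N : ℤ) (M : GrMod) (m n : ℕ) (i j k : ℤ) (h : i + n = j)
    (h' : j + m = k) (h'' : i + (m + n : ℕ) = k) (x : TruncPart N M i) :
    truncAct N M m j k h' (truncAct N M n i j h x)
      = (Nat.choose (m + n) m) • truncAct N M (m + n) i k h'' x :=
  Subtype.ext (M.act_act m n i j k h h' h'' x.1)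

/-- The truncation `τ_{≥ n}(M)`, a graded submodule of `M`. -/
def trunc (n : ℤ) (M : GrMod) : GrMod where
  carrier := TruncPart n M
  grp := instTrunc n M
  act := truncAct n M
  act_add := truncAct_add n M
  act_zero := truncAct_zero n M
  act_act := truncAct_act n M

/-! ### The counterexample -/

theorem hom_map_zero {M N : GrMod} (f : GrHom M N) (i : ℤ) : f.map i 0 = 0 := by
  have := f.map_add i 0 0
  rw [add_zero] at this
  exact left_eq_add.mp this

/-- a morphism in one degree as a bundled additive map -/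
def homAt {M N : GrMod} (f : GrHom M N) (i : ℤ) : M.carrier i →+ N.carrier i where
  toFun := f.map i
  map_zero' := hom_map_zero f i
  map_add' := f.map_add i

/-- the action as a bundled additive map -/
def actAt (M : GrMod) (m : ℕ) (i j : ℤ) (h : i + m = j) : M.carrier i →+ M.carrier j where
  toFun := M.act m i j h
  map_zero' := act_map_zero M m i j h
  map_add' := M.act_add m i j h

/-- Cokernel of a map of graded modules. -/
def coker {M N : GrMod} (φ : GrHom M N) : GrMod where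
  carrier i := N.carrier i ⧸ (homAt φ i).range
  grp i := inferInstance
  act m i j h := QuotientAddGroup.map _ _ (actAt N m i j h) (by
    rintro _ ⟨y, rfl⟩
    exact ⟨M.act m i j h y, φ.comm m i j h y⟩)
  act_add m i j h x y := map_add _ _ _
  act_zero := by
    intro i h x
    obtain ⟨y, rfl⟩ := QuotientAddGroup.mk_surjective x
    rw [QuotientAddGroup.map_mk]
    exact congrArg _ (N.act_zero i h y)
  act_act := by
    intro m n i j k h h' h'' x
    obtain ⟨y, rfl⟩ := QuotientAddGroup.mk_surjective x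
    rw [QuotientAddGroup.map_mk, QuotientAddGroup.map_mk, QuotientAddGroup.map_mk]
    exact congrArg (QuotientAddGroup.mk (s := (homAt φ k).range)) (N.act_act m n i j k h h' h'' y)

def cokerProj {M N : GrMod} (φ : GrHom M N) : GrHom N (coker φ) where
  map i := QuotientAddGroup.mk' (homAt φ i).range
  map_add i x y := map_add _ _ _
  comm _ _ _ _ _ := rfl

theorem coker_fp {ι κ : Type} [Finite ι] [Finite κ] {d : ι → ℤ} {e : κ → ℤ}
    (φ : GrHom (free e) (free d)) : IsFinPres (coker φ) := by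
  refine ⟨ι, κ, inferInstance, inferInstance, d, e, φ, cokerProj φ, ?_, ?_⟩
  · intro i
    exact QuotientAddGroup.mk'_surjective _
  · intro i x
    exact QuotientAddGroup.eq_zero_iff (N := (homAt φ i).range) x

/-- degrees of the generators -/
def dd : Fin 2 → ℤ := ![0, 4]
/-- degrees of the relations -/
def ee : Fin 2 → ℤ := ![1, 5]

theorem dd0 : dd 0 = 0 := rfl
theorem dd1 : dd 1 = 4 := rfl
theorem ee0 : ee 0 = 1 := rfl
theorem ee1 : ee 1 = 5 := rfl

theorem mem_freePart {ι : Type} {d : ι → ℤ} {i : ℤ} {c : ι → ℤ} :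
    c ∈ freePart d i ↔ ∀ s, i < d s → c s = 0 := Iff.rfl

theorem mem_dd {i : ℤ} {c : Fin 2 → ℤ} :
    c ∈ freePart dd i ↔ (i < 0 → c 0 = 0) ∧ (i < 4 → c 1 = 0) := by
  rw [mem_freePart, Fin.forall_fin_two, dd0, dd1]

theorem mem_ee {i : ℤ} {c : Fin 2 → ℤ} :
    c ∈ freePart ee i ↔ (i < 1 → c 0 = 0) ∧ (i < 5 → c 1 = 0) := by
  rw [mem_freePart, Fin.forall_fin_two, ee0, ee1]

/-- Build a morphism of free modules from its coefficient maps. -/
def mkHom {ι κ : Type} (e : κ → ℤ) (d : ι → ℤ) (F : ℤ → (κ → ℤ) →+ (ι → ℤ))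
    (hF : ∀ i, ∀ c ∈ freePart e i, F i c ∈ freePart d i)
    (hc : ∀ (m : ℕ) (i j : ℤ), i + m = j → ∀ c ∈ freePart e i,
      F j (fun s => (Nat.choose (j - e s).toNat m : ℤ) * c s)
        = fun s => (Nat.choose (j - d s).toNat m : ℤ) * F i c s) :
    GrHom (free e) (free d) where
  map i := fun b => (⟨F i (show freePart e i from b).1,
        hF i _ (show freePart e i from b).2⟩ : freePart d i)
  map_add i := fun a b => Subtype.ext (map_add (F i) _ _)
  comm := by
    intro m i j h b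
    exact Subtype.ext (hc m i j h _ (show freePart e i from b).2)

/-- coefficient map of the relation map -/
def phiC (a : ℤ) (i : ℤ) : (Fin 2 → ℤ) →+ (Fin 2 → ℤ) where
  toFun b := ![i * b 0 - a * (Nat.choose i.toNat 5 : ℤ) * b 1, (i - 4) * b 1]
  map_zero' := by
    funext s
    fin_cases s <;> simp
  map_add' := by
    intro b c
    funext s
    fin_cases s
    · change i * (b 0 + c 0) - a * (Nat.choose i.toNat 5 : ℤ) * (b 1 + c 1)
            = (i * b 0 - a * (Nat.choose i.toNat 5 : ℤ) * b 1)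
              + (i * c 0 - a * (Nat.choose i.toNat 5 : ℤ) * c 1)
      ring
    · change (i - 4) * (b 1 + c 1) = (i - 4) * b 1 + (i - 4) * c 1
      ring

theorem phiC_0 (a i : ℤ) (b : Fin 2 → ℤ) :
    phiC a i b 0 = i * b 0 - a * (Nat.choose i.toNat 5 : ℤ) * b 1 := rfl
theorem phiC_1 (a i : ℤ) (b : Fin 2 → ℤ) : phiC a i b 1 = (i - 4) * b 1 := rfl

theorem aux_mul (k m : ℕ) : ((k + m + 1 : ℕ) : ℤ) * (Nat.choose (k + m) m : ℤ)
    = (Nat.choose (k + m + 1) m : ℤ) * ((k + 1 : ℕ) : ℤ) := by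
  have h := Nat.choose_mul_succ_eq (k + m) m
  have e : k + m + 1 - m = k + 1 := by omega
  rw [e] at h
  have h2 : ((Nat.choose (k + m) m : ℤ)) * ((k + m + 1 : ℕ) : ℤ)
      = (Nat.choose (k + m + 1) m : ℤ) * ((k + 1 : ℕ) : ℤ) := by exact_mod_cast h
  rw [mul_comm]; exact h2

theorem aux_five (l m : ℕ) : (Nat.choose (l + 5 + m) 5 : ℤ) * (Nat.choose (l + m) m : ℤ)
    = (Nat.choose (l + 5 + m) m : ℤ) * (Nat.choose (l + 5) 5 : ℤ) := by
  have k2 := choose_aux l 5 m
  have k3 := choose_aux l m 5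
  have e6 : l + m + 5 = l + 5 + m := by omega
  have e9 : 5 + m = m + 5 := by omega
  rw [e6, e9] at k2
  have e10 : Nat.choose (m + 5) 5 = Nat.choose (m + 5) m :=
    Nat.choose_symm_of_eq_add (by omega)
  rw [e10, ← k3] at k2
  exact_mod_cast k2

/-- The relation map: `x^[1] e_0` in degree 1, `x^[1] e_4 - a x^[5] e_0` in degree 5. -/
def phi (a : ℤ) : GrHom (free ee) (free dd) :=
  mkHom ee dd (phiC a)
    (by
      intro i c hc
      rw [mem_ee] at hc
      rw [mem_dd, phiC_0, phiC_1]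
      constructor
      · intro hi
        rw [hc.1 (by omega), hc.2 (by omega)]; ring
      · intro hi
        rw [hc.2 (by omega)]; ring)
    (by
      intro m i j h c hc
      rw [mem_ee] at hc
      funext s
      revert s
      rw [Fin.forall_fin_two]
      constructor
      · rw [phiC_0, phiC_0, ee0, ee1, dd0]
        by_cases h1 : i < 1
        · rw [hc.1 (by omega), hc.2 (by omega)]; ring
        · obtain ⟨k, rfl⟩ : ∃ k : ℕ, i = k + 1 := ⟨(i - 1).toNat, by omega⟩
          obtain rfl : j = k + m + 1 := by omega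
          have e1 : ((k : ℤ) + m + 1 - 1).toNat = k + m := by omega
          have e2 : ((k : ℤ) + m + 1 - 0).toNat = k + m + 1 := by omega
          have e3 : ((k : ℤ) + m + 1).toNat = k + m + 1 := by omega
          have e4 : ((k : ℤ) + 1).toNat = k + 1 := by omega
          rw [e1, e2, e3, e4]
          have key := aux_mul k m
          push_cast at key
          by_cases h5 : (k : ℤ) + 1 < 5
          · rw [hc.2 (by omega)]
            linear_combination (c 0) * key
          · obtain ⟨l, rfl⟩ : ∃ l : ℕ, k = l + 4 := ⟨k - 4, by omega⟩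
            have e5 : (((l + 4 : ℕ) : ℤ) + m + 1 - 5).toNat = l + m := by omega
            rw [e5]
            have k4 := aux_five l m
            have e7 : l + 4 + m + 1 = l + 5 + m := by omega
            have e8 : l + 4 + 1 = l + 5 := by omega
            rw [e7] at key ⊢
            rw [e8]
            push_cast at key ⊢
            linear_combination (c 0) * key - a * c 1 * k4
      · rw [phiC_1, phiC_1, ee1, dd1]
        by_cases h1 : i < 5
        · rw [hc.2 (by omega)]; ring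
        · obtain ⟨k, rfl⟩ : ∃ k : ℕ, i = k + 5 := ⟨(i - 5).toNat, by omega⟩
          obtain rfl : j = k + m + 5 := by omega
          have e1 : ((k : ℤ) + m + 5 - 5).toNat = k + m := by omega
          have e2 : ((k : ℤ) + m + 5 - 4).toNat = k + m + 1 := by omega
          rw [e1, e2]
          have key := aux_mul k m
          push_cast at key
          linear_combination (c 1) * key)

/-- the module `⟨e_0, e_4 | x^[1] e_0 = 0, x^[1] e_4 = a x^[5] e_0⟩` -/
def NN (a : ℤ) : GrMod := coker (phi a)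


theorem exists_mu (k : ℕ) (hk : 0 < k) :
    ∃ m : ℤ, ((ordCompl[5] k : ℕ) : ℤ) ∣ m - 1 ∧ ((5 * ordProj[5] k : ℕ) : ℤ) ∣ m - 3 := by
  have hc : Nat.Coprime 5 (ordCompl[5] k) := Nat.coprime_ordCompl (by norm_num) hk.ne'
  have hc2 : Nat.Coprime (5 * ordProj[5] k) (ordCompl[5] k) :=
    Nat.Coprime.mul_left hc (hc.pow_left _)
  have hc3 : IsCoprime ((5 * ordProj[5] k : ℕ) : ℤ) ((ordCompl[5] k : ℕ) : ℤ) :=
    Nat.isCoprime_iff_coprime.mpr hc2
  obtain ⟨x, y, hxy⟩ := hc3
  refine ⟨x * ((5 * ordProj[5] k : ℕ) : ℤ) + 3 * (y * ((ordCompl[5] k : ℕ) : ℤ)), ?_, ?_⟩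
  · exact ⟨2 * y, by linear_combination hxy⟩
  · exact ⟨-2 * x, by linear_combination 3 * hxy⟩

/-- the multiplier in degree `k + 4` -/
noncomputable def mu (k : ℕ) : ℤ := if hk : 0 < k then Classical.choose (exists_mu k hk) else 3

theorem mu_spec (k : ℕ) (hk : 0 < k) :
    ((ordCompl[5] k : ℕ) : ℤ) ∣ mu k - 1 ∧ ((5 * ordProj[5] k : ℕ) : ℤ) ∣ mu k - 3 := by
  have := Classical.choose_spec (exists_mu k hk)
  rw [mu, dif_pos hk]
  exact this

theorem mu_mod5 (k : ℕ) : ∃ t : ℤ, mu k = 3 + 5 * t := by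
  by_cases hk : 0 < k
  · obtain ⟨t, ht⟩ := (mu_spec k hk).2
    refine ⟨ordProj[5] k * t, ?_⟩
    push_cast at ht ⊢
    linear_combination ht
  · exact ⟨0, by rw [mu, dif_neg hk]; ring⟩

theorem mu_coprime (k : ℕ) (hk : 0 < k) : IsCoprime (mu k) (k : ℤ) := by
  obtain ⟨t, ht⟩ := mu_mod5 k
  have h5 : IsCoprime (mu k) (5 : ℤ) := ⟨2, -(1 + 2 * t), by rw [ht]; ring⟩
  have hp : IsCoprime (mu k) ((ordProj[5] k : ℕ) : ℤ) := by
    push_cast
    exact h5.pow_right
  have hq : IsCoprime (mu k) ((ordCompl[5] k : ℕ) : ℤ) := by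
    obtain ⟨u, hu⟩ := (mu_spec k hk).1
    exact ⟨1, -u, by linear_combination hu⟩
  have := hp.mul_right hq
  have e : ((ordProj[5] k : ℕ) : ℤ) * ((ordCompl[5] k : ℕ) : ℤ) = (k : ℤ) := by
    exact_mod_cast Nat.ordProj_mul_ordCompl_eq_self k 5
  rwa [e] at this

theorem mu_sub (k l : ℕ) (hk : 0 < k) (hl : 0 < l) :
    ((5 * Nat.gcd k l : ℕ) : ℤ) ∣ mu k - mu l := by
  set g := Nat.gcd k l with hg
  have hg0 : 0 < g := Nat.gcd_pos_of_pos_left l hk
  have hgk : g ∣ k := Nat.gcd_dvd_left k l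
  have hgl : g ∣ l := Nat.gcd_dvd_right k l
  have a1 : ((ordCompl[5] g : ℕ) : ℤ) ∣ mu k - 1 :=
    (Int.natCast_dvd_natCast.mpr (Nat.ordCompl_dvd_ordCompl_of_dvd hgk 5)).trans (mu_spec k hk).1
  have a2 : ((ordCompl[5] g : ℕ) : ℤ) ∣ mu l - 1 :=
    (Int.natCast_dvd_natCast.mpr (Nat.ordCompl_dvd_ordCompl_of_dvd hgl 5)).trans (mu_spec l hl).1
  have b1 : ((5 * ordProj[5] g : ℕ) : ℤ) ∣ mu k - 3 :=
    (Int.natCast_dvd_natCast.mpr (Nat.mul_dvd_mul_left 5
      (Nat.ordProj_dvd_ordProj_of_dvd hk.ne' hgk 5))).trans (mu_spec k hk).2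
  have b2 : ((5 * ordProj[5] g : ℕ) : ℤ) ∣ mu l - 3 :=
    (Int.natCast_dvd_natCast.mpr (Nat.mul_dvd_mul_left 5
      (Nat.ordProj_dvd_ordProj_of_dvd hl.ne' hgl 5))).trans (mu_spec l hl).2
  have a3 : ((ordCompl[5] g : ℕ) : ℤ) ∣ mu k - mu l := by
    have := dvd_sub a1 a2
    rwa [sub_sub_sub_cancel_right] at this
  have b3 : ((5 * ordProj[5] g : ℕ) : ℤ) ∣ mu k - mu l := by
    have := dvd_sub b1 b2
    rwa [sub_sub_sub_cancel_right] at this
  have hc : Nat.Coprime 5 (ordCompl[5] g) := Nat.coprime_ordCompl (by norm_num) hg0.ne'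
  have hc2 : Nat.Coprime (5 * ordProj[5] g) (ordCompl[5] g) :=
    Nat.Coprime.mul_left hc (hc.pow_left _)
  have hc3 : IsCoprime ((5 * ordProj[5] g : ℕ) : ℤ) ((ordCompl[5] g : ℕ) : ℤ) :=
    Nat.isCoprime_iff_coprime.mpr hc2
  have := hc3.mul_dvd b3 a3
  have e : ((5 * ordProj[5] g : ℕ) : ℤ) * ((ordCompl[5] g : ℕ) : ℤ) = ((5 * g : ℕ) : ℤ) := by
    have h1 := Nat.ordProj_mul_ordCompl_eq_self g 5
    have h2 : (5 * ordProj[5] g) * ordCompl[5] g = 5 * g := by
      rw [mul_assoc, h1]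
    exact_mod_cast h2
  rwa [e] at this

theorem dvd_gcd_choose (k l : ℕ) (hk : 0 < k) (hkl : k ≤ l) :
    l ∣ Nat.gcd k l * Nat.choose l k := by
  have h1 : l ∣ k * Nat.choose l k := by
    obtain ⟨k', rfl⟩ : ∃ k', k = k' + 1 := ⟨k - 1, by omega⟩
    obtain ⟨l', rfl⟩ : ∃ l', l = l' + 1 := ⟨l - 1, by omega⟩
    exact ⟨Nat.choose l' k', by rw [Nat.add_one_mul_choose_eq l' k', mul_comm]⟩
  have h2 : l ∣ l * Nat.choose l k := Dvd.intro _ rfl
  have := Nat.dvd_gcd h1 h2
  rwa [Nat.gcd_mul_right] at this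

theorem five_choose (k : ℕ) : 5 * Nat.choose (k + 1) 5 = (k + 1) * Nat.choose k 4 := by
  rw [Nat.add_one_mul_choose_eq k 4]; ring

/-- class of a coefficient vector -/
def mkN (a : ℤ) (i : ℤ) (c : Fin 2 → ℤ) (hc : c ∈ freePart dd i) : (NN a).carrier i :=
  QuotientAddGroup.mk (s := (homAt (phi a) i).range) (show (free dd).carrier i from ⟨c, hc⟩)

theorem mkN_surj (a i : ℤ) (x : (NN a).carrier i) :
    ∃ c, ∃ hc : c ∈ freePart dd i, mkN a i c hc = x := by
  obtain ⟨y, rfl⟩ := QuotientAddGroup.mk_surjective (s := (homAt (phi a) i).range) x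
  exact ⟨y.1, y.2, rfl⟩

theorem mkN_eq (a i : ℤ) (c c' : Fin 2 → ℤ) (hc : c ∈ freePart dd i) (hc' : c' ∈ freePart dd i) :
    mkN a i c hc = mkN a i c' hc' ↔ ∃ b ∈ freePart ee i, phiC a i b = c' - c := by
  have h1 : mkN a i c hc = mkN a i c' hc' ↔
      -(show (free dd).carrier i from ⟨c, hc⟩) + (show (free dd).carrier i from ⟨c', hc'⟩)
        ∈ (homAt (phi a) i).range := QuotientAddGroup.eq
  rw [h1]
  constructor
  · rintro ⟨b, hb⟩
    refine ⟨b.1, b.2, ?_⟩
    have : phiC a i b.1 = -c + c' := congrArg Subtype.val hb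
    rw [this]; ring
  · rintro ⟨b, hb, h⟩
    refine ⟨⟨b, hb⟩, Subtype.ext ?_⟩
    have : phiC a i b = -c + c' := by rw [h]; ring
    exact this

theorem mkN_add (a i : ℤ) (c c' : Fin 2 → ℤ) (hc : c ∈ freePart dd i) (hc' : c' ∈ freePart dd i) :
    mkN a i c hc + mkN a i c' hc' = mkN a i (c + c') (add_mem hc hc') := rfl

theorem mkN_zero (a i : ℤ) : mkN a i 0 (zero_mem _) = 0 := rfl

/-- coefficients of `x^[m]` times an element -/
def actC (m : ℕ) (j : ℤ) (c : Fin 2 → ℤ) : Fin 2 → ℤ :=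
  fun s => (Nat.choose (j - dd s).toNat m : ℤ) * c s

theorem actC_mem (m : ℕ) (i j : ℤ) (h : i + m = j) (c : Fin 2 → ℤ) (hc : c ∈ freePart dd i) :
    actC m j c ∈ freePart dd j := by
  rw [mem_dd] at hc ⊢
  simp only [actC]
  constructor
  · intro hj; rw [hc.1 (by omega)]; ring
  · intro hj; rw [hc.2 (by omega)]; ring

theorem mkN_act (a : ℤ) (m : ℕ) (i j : ℤ) (h : i + m = j) (c : Fin 2 → ℤ)
    (hc : c ∈ freePart dd i) :
    (NN a).act m i j h (mkN a i c hc) = mkN a j (actC m j c) (actC_mem m i j h c hc) := rfl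


/-- scaling the `e_4` coefficient -/
def scaleC (t : ℤ) : (Fin 2 → ℤ) →+ (Fin 2 → ℤ) where
  toFun c := ![c 0, t * c 1]
  map_zero' := by funext s; fin_cases s <;> simp
  map_add' := by
    intro b c
    funext s
    revert s
    rw [Fin.forall_fin_two]
    exact ⟨rfl, mul_add t (b 1) (c 1)⟩

theorem scaleC_0 (t : ℤ) (c : Fin 2 → ℤ) : scaleC t c 0 = c 0 := rfl
theorem scaleC_1 (t : ℤ) (c : Fin 2 → ℤ) : scaleC t c 1 = t * c 1 := rfl

theorem scaleC_mem (t i : ℤ) (c : Fin 2 → ℤ) (hc : c ∈ freePart dd i) :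
    scaleC t c ∈ freePart dd i := by
  rw [mem_dd] at hc ⊢
  rw [scaleC_0, scaleC_1]
  exact ⟨hc.1, fun h => by rw [hc.2 h]; ring⟩

/-- the scaling on the free module in one degree -/
def scaleF (t i : ℤ) : (free dd).carrier i →+ (free dd).carrier i where
  toFun c := (⟨scaleC t (show freePart dd i from c).1,
    scaleC_mem t i _ (show freePart dd i from c).2⟩ : freePart dd i)
  map_zero' := Subtype.ext (map_zero (scaleC t))
  map_add' := fun a b => Subtype.ext (map_add (scaleC t) _ _)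

theorem five_choose' (i : ℤ) (hi : 5 ≤ i) :
    5 * (Nat.choose i.toNat 5 : ℤ) = i * (Nat.choose (i.toNat - 1) 4 : ℤ) := by
  obtain ⟨k, rfl⟩ : ∃ k : ℕ, i = k + 1 := ⟨(i - 1).toNat, by omega⟩
  have e : ((k : ℤ) + 1).toNat = k + 1 := by omega
  rw [e]
  have := five_choose k
  rw [Nat.add_sub_cancel]
  exact_mod_cast this

theorem scale_wd (t i : ℤ) (ht : ∃ u : ℤ, t = 3 + 5 * u) :
    (homAt (phi 1) i).range ≤ (homAt (phi 2) i).range.comap (scaleF t i) := by
  rintro _ ⟨b, rfl⟩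
  obtain ⟨u, hu⟩ := ht
  obtain ⟨b, hb⟩ := b
  have hb' := mem_ee.mp hb
  refine ⟨(⟨![b 0 + (1 + 2 * u) * (Nat.choose (i.toNat - 1) 4 : ℤ) * b 1, t * b 1], ?_⟩
    : freePart ee i), ?_⟩
  · rw [mem_ee]
    constructor
    · intro hi
      change b 0 + (1 + 2 * u) * (Nat.choose (i.toNat - 1) 4 : ℤ) * b 1 = 0
      rw [hb'.1 hi, hb'.2 (by omega)]; ring
    · intro hi
      change t * b 1 = 0
      rw [hb'.2 hi]; ring
  · refine Subtype.ext ?_
    change phiC 2 i ![b 0 + (1 + 2 * u) * (Nat.choose (i.toNat - 1) 4 : ℤ) * b 1, t * b 1]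
      = scaleC t (phiC 1 i b)
    funext s
    revert s
    rw [Fin.forall_fin_two]
    rw [phiC_0, phiC_1, scaleC_0, scaleC_1, phiC_0, phiC_1]
    change i * (b 0 + (1 + 2 * u) * (Nat.choose (i.toNat - 1) 4 : ℤ) * b 1)
        - 2 * (Nat.choose i.toNat 5 : ℤ) * (t * b 1)
        = i * b 0 - 1 * (Nat.choose i.toNat 5 : ℤ) * b 1
      ∧ (i - 4) * (t * b 1) = t * ((i - 4) * b 1)
    constructor
    · by_cases hi : i < 5
      · rw [hb'.2 hi]; ring
      · have h5 := five_choose' i (by omega)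
        rw [hu]
        linear_combination -(1 + 2 * u) * b 1 * h5
    · ring

/-- the map `N^(1)_i → N^(2)_i`, `e_0 ↦ e_0`, `e_4 ↦ t e_4` -/
def gmap (t i : ℤ) (ht : ∃ u : ℤ, t = 3 + 5 * u) : (NN 1).carrier i →+ (NN 2).carrier i :=
  QuotientAddGroup.map _ _ (scaleF t i) (scale_wd t i ht)

theorem gmap_mkN (t i : ℤ) (ht : ∃ u : ℤ, t = 3 + 5 * u) (c : Fin 2 → ℤ)
    (hc : c ∈ freePart dd i) :
    gmap t i ht (mkN 1 i c hc) = mkN 2 i (scaleC t c) (scaleC_mem t i c hc) := rfl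

/-- the multiplier in degree `i` -/
noncomputable def lam (i : ℤ) : ℤ := mu (i - 4).toNat

theorem lam_spec (i : ℤ) : ∃ u : ℤ, lam i = 3 + 5 * u := mu_mod5 _

theorem gmap_comm (m : ℕ) (i j : ℤ) (h : i + m = j) (hi : 5 ≤ i) (x : (NN 1).carrier i) :
    gmap (lam j) j (lam_spec j) ((NN 1).act m i j h x)
      = (NN 2).act m i j h (gmap (lam i) i (lam_spec i) x) := by
  obtain ⟨c, hc, rfl⟩ := mkN_surj 1 i x
  rw [mkN_act, gmap_mkN, gmap_mkN, mkN_act, mkN_eq]
  obtain ⟨k, rfl⟩ : ∃ k : ℕ, i = k + 4 := ⟨(i - 4).toNat, by omega⟩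
  obtain rfl : j = k + m + 4 := by omega
  have hk : 0 < k := by omega
  have e1 : lam ((k : ℤ) + 4) = mu k := by
    unfold lam; congr 1; omega
  have e2 : lam ((k : ℤ) + m + 4) = mu (k + m) := by
    unfold lam; congr 1; omega
  rw [e1, e2]
  obtain ⟨r, hr⟩ := mu_sub k (k + m) hk (by omega)
  obtain ⟨q, hq⟩ := dvd_gcd_choose k (k + m) hk (by omega)
  have hq' : (Nat.gcd k (k + m) : ℤ) * (Nat.choose (k + m) k : ℤ) = ((k : ℤ) + m) * q := by
    exact_mod_cast hq
  have hsymm : Nat.choose (k + m) m = Nat.choose (k + m) k :=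
    Nat.choose_symm_of_eq_add (by omega)
  have h5 := five_choose' ((k : ℤ) + m + 4) (by omega)
  refine ⟨![2 * (Nat.choose (((k : ℤ) + m + 4).toNat - 1) 4 : ℤ) * (q * r * c 1),
    5 * (q * r * c 1)], ?_, ?_⟩
  · rw [mem_ee]
    exact ⟨fun h => by omega, fun h => by omega⟩
  · funext s
    revert s
    rw [Fin.forall_fin_two, phiC_0, phiC_1, Pi.sub_apply, Pi.sub_apply, scaleC_0, scaleC_1]
    have f0 : actC m ((k : ℤ) + m + 4) (scaleC (mu k) c) 0
        = actC m ((k : ℤ) + m + 4) c 0 := rfl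
    have f1 : actC m ((k : ℤ) + m + 4) (scaleC (mu k) c) 1
        = (Nat.choose (k + m) k : ℤ) * (mu k * c 1) := by
      change (Nat.choose ((k : ℤ) + m + 4 - 4).toNat m : ℤ) * (mu k * c 1) = _
      rw [← hsymm]
      congr 3
      omega
    have f2 : actC m ((k : ℤ) + m + 4) c 1 = (Nat.choose (k + m) k : ℤ) * c 1 := by
      change (Nat.choose ((k : ℤ) + m + 4 - 4).toNat m : ℤ) * c 1 = _
      rw [← hsymm]
      congr 3
      omega
    rw [f0, f1, f2]
    change ((k : ℤ) + m + 4) * (2 * (Nat.choose (((k : ℤ) + m + 4).toNat - 1) 4 : ℤ)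
        * (q * r * c 1)) - 2 * (Nat.choose ((k : ℤ) + m + 4).toNat 5 : ℤ) * (5 * (q * r * c 1))
        = actC m ((k : ℤ) + m + 4) c 0 - actC m ((k : ℤ) + m + 4) c 0
      ∧ ((k : ℤ) + m + 4 - 4) * (5 * (q * r * c 1))
        = (Nat.choose (k + m) k : ℤ) * (mu k * c 1)
          - mu (k + m) * ((Nat.choose (k + m) k : ℤ) * c 1)
    constructor
    · linear_combination -2 * (q * r * c 1) * h5
    · push_cast at hr
      linear_combination (-5 * r * c 1) * hq' - (Nat.choose (k + m) k : ℤ) * c 1 * hr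

theorem gmap_bij (i : ℤ) (hi : 5 ≤ i) : Function.Bijective (gmap (lam i) i (lam_spec i)) := by
  obtain ⟨k, rfl⟩ : ∃ k : ℕ, i = k + 4 := ⟨(i - 4).toNat, by omega⟩
  have hk : 0 < k := by omega
  have e1 : lam ((k : ℤ) + 4) = mu k := by
    unfold lam; congr 1; omega
  have h5 := five_choose' ((k : ℤ) + 4) (by omega)
  obtain ⟨u, hu⟩ := lam_spec ((k : ℤ) + 4)
  obtain ⟨x, y, hxy⟩ := mu_coprime k hk
  rw [← e1] at hxy
  have hdd : ∀ c : Fin 2 → ℤ, c ∈ freePart dd ((k : ℤ) + 4) := by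
    intro c; rw [mem_dd]; exact ⟨fun h => by omega, fun h => by omega⟩
  have hee : ∀ c : Fin 2 → ℤ, c ∈ freePart ee ((k : ℤ) + 4) := by
    intro c; rw [mem_ee]; exact ⟨fun h => by omega, fun h => by omega⟩
  constructor
  · rw [injective_iff_map_eq_zero]
    intro z hz
    obtain ⟨c, hc, rfl⟩ := mkN_surj 1 _ z
    rw [gmap_mkN, ← mkN_zero, eq_comm, mkN_eq] at hz
    obtain ⟨b, hb, hbc⟩ := hz
    rw [← mkN_zero, eq_comm, mkN_eq]
    have c0 := congrFun hbc 0
    have c1 := congrFun hbc 1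
    rw [phiC_0, Pi.sub_apply, scaleC_0] at c0
    rw [phiC_1, Pi.sub_apply, scaleC_1] at c1
    simp only [Pi.zero_apply, sub_zero] at c0 c1
    -- `c 1 = k * w`
    set w : ℤ := x * b 1 + y * c 1 with hw
    have hcw : c 1 = k * w := by
      rw [hw]
      linear_combination (-c 1) * hxy - x * c1
    have hbw : b 1 = lam ((k : ℤ) + 4) * w := by
      have hk0 : (k : ℤ) ≠ 0 := by omega
      apply mul_left_cancel₀ hk0
      linear_combination c1 + lam ((k : ℤ) + 4) * hcw
    refine ⟨![b 0 - (1 + 2 * u) * (Nat.choose (((k : ℤ) + 4).toNat - 1) 4 : ℤ) * w, w],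
      hee _, ?_⟩
    funext s
    revert s
    rw [Fin.forall_fin_two, phiC_0, phiC_1]
    change ((k : ℤ) + 4) * (b 0 - (1 + 2 * u) * (Nat.choose (((k : ℤ) + 4).toNat - 1) 4 : ℤ) * w)
        - 1 * (Nat.choose ((k : ℤ) + 4).toNat 5 : ℤ) * w = c 0 - 0
      ∧ ((k : ℤ) + 4 - 4) * w = c 1 - 0
    constructor
    · rw [hbw, hu] at c0
      linear_combination c0 + (1 + 2 * u) * w * h5
    · rw [hcw]; ring
  · intro z
    obtain ⟨c, hc, rfl⟩ := mkN_surj 2 _ z
    refine ⟨mkN 1 _ ![c 0 + 2 * (Nat.choose ((k : ℤ) + 4).toNat 5 : ℤ) * (y * c 1), x * c 1]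
      (hdd _), ?_⟩
    rw [gmap_mkN, mkN_eq]
    refine ⟨![0, y * c 1], hee _, ?_⟩
    funext s
    revert s
    rw [Fin.forall_fin_two, phiC_0, phiC_1, Pi.sub_apply, Pi.sub_apply, scaleC_0, scaleC_1]
    change ((k : ℤ) + 4) * 0 - 2 * (Nat.choose ((k : ℤ) + 4).toNat 5 : ℤ) * (y * c 1)
        = c 0 - (c 0 + 2 * (Nat.choose ((k : ℤ) + 4).toNat 5 : ℤ) * (y * c 1))
      ∧ ((k : ℤ) + 4 - 4) * (y * c 1) = c 1 - lam ((k : ℤ) + 4) * (x * c 1)
    constructor
    · ring
    · linear_combination (c 1) * hxy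

/-- the isomorphism of the tails -/
noncomputable def tailHom : GrHom (trunc 5 (NN 1)) (trunc 5 (NN 2)) where
  map i := fun x => (⟨gmap (lam i) i (lam_spec i) (show truncPart 5 (NN 1) i from x).1, by
        intro hi
        have : (show truncPart 5 (NN 1) i from x).1 = 0 :=
          (show truncPart 5 (NN 1) i from x).2 hi
        rw [this, map_zero]⟩ : truncPart 5 (NN 2) i)
  map_add i := fun a b => Subtype.ext (map_add (gmap (lam i) i (lam_spec i)) _ _)
  comm := by
    intro m i j h x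
    refine Subtype.ext ?_
    change gmap (lam j) j (lam_spec j) ((NN 1).act m i j h (show truncPart 5 (NN 1) i from x).1)
      = (NN 2).act m i j h (gmap (lam i) i (lam_spec i) (show truncPart 5 (NN 1) i from x).1)
    by_cases hi : 5 ≤ i
    · exact gmap_comm m i j h hi _
    · have : (show truncPart 5 (NN 1) i from x).1 = 0 :=
          (show truncPart 5 (NN 1) i from x).2 (by omega)
      rw [this, act_map_zero, map_zero, map_zero, act_map_zero]

theorem tail_iso : Isomorphic (trunc 5 (NN 1)) (trunc 5 (NN 2)) := by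
  refine ⟨tailHom, fun i => ?_⟩
  by_cases hi : 5 ≤ i
  · have hb := gmap_bij i hi
    constructor
    · intro x y hxy
      have h1 : gmap (lam i) i (lam_spec i) (show truncPart 5 (NN 1) i from x).1
        = gmap (lam i) i (lam_spec i) (show truncPart 5 (NN 1) i from y).1 :=
        congrArg Subtype.val hxy
      exact Subtype.ext (hb.1 h1)
    · intro y
      obtain ⟨x, hx⟩ := hb.2 (show truncPart 5 (NN 2) i from y).1
      exact ⟨(⟨x, fun h => absurd hi (by omega)⟩ : truncPart 5 (NN 1) i), Subtype.ext hx⟩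
  · constructor
    · intro x y _
      have h1 : (show truncPart 5 (NN 1) i from x).1 = 0 :=
          (show truncPart 5 (NN 1) i from x).2 (by omega)
      have h2 : (show truncPart 5 (NN 1) i from y).1 = 0 :=
          (show truncPart 5 (NN 1) i from y).2 (by omega)
      exact Subtype.ext (h1.trans h2.symm)
    · intro y
      have h2 : (show truncPart 5 (NN 2) i from y).1 = 0 :=
          (show truncPart 5 (NN 2) i from y).2 (by omega)
      refine ⟨0, ?_⟩
      rw [hom_map_zero]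
      exact Subtype.ext h2.symm

theorem not_iso : ¬ Isomorphic (NN 1) (NN 2) := by
  rintro ⟨f, hf⟩
  -- degree 0
  have hE0 : (![1, 0] : Fin 2 → ℤ) ∈ freePart dd 0 := by
    rw [mem_dd]; exact ⟨fun h => by omega, fun _ => rfl⟩
  have hE4 : (![0, 1] : Fin 2 → ℤ) ∈ freePart dd 4 := by
    rw [mem_dd]; exact ⟨fun h => by omega, fun h => by omega⟩
  obtain ⟨U, hU, hfU⟩ := mkN_surj 2 0 (f.map 0 (mkN 1 0 _ hE0))
  obtain ⟨V, hV, hfV⟩ := mkN_surj 2 4 (f.map 4 (mkN 1 4 _ hE4))
  have hU1 : U 1 = 0 := (mem_dd.mp hU).2 (by omega)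
  -- `U 0` is a unit
  have hu : ∃ c : ℤ, c * U 0 = 1 := by
    obtain ⟨z, hz⟩ := (hf 0).2 (mkN 2 0 _ hE0)
    obtain ⟨c, hc, rfl⟩ := mkN_surj 1 0 z
    have hc1 : c 1 = 0 := (mem_dd.mp hc).2 (by omega)
    have e1 : mkN 1 0 c hc = c 0 • mkN 1 0 _ hE0 := by
      have : c = c 0 • (![1, 0] : Fin 2 → ℤ) := by
        funext s; revert s; rw [Fin.forall_fin_two]
        simp [hc1]
      have e2 : ∀ (c' : Fin 2 → ℤ) (hc' : c' ∈ freePart dd 0), c' = c 0 • (![1, 0] : Fin 2 → ℤ) →
          mkN 1 0 c' hc' = c 0 • mkN 1 0 _ hE0 := by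
        intro c' hc' h; subst h; rfl
      exact e2 c hc this
    have hzs : f.map 0 (c 0 • mkN 1 0 _ hE0) = c 0 • f.map 0 (mkN 1 0 _ hE0) :=
      map_zsmul (homAt f 0) (c 0) _
    rw [e1, hzs, ← hfU] at hz
    have e3 : c 0 • mkN 2 0 U hU = mkN 2 0 (c 0 • U) (zsmul_mem hU _) := rfl
    rw [e3, mkN_eq] at hz
    obtain ⟨b, hb, hbc⟩ := hz
    have hb' := mem_ee.mp hb
    have := congrFun hbc 0
    rw [phiC_0, hb'.1 (by omega), hb'.2 (by omega)] at this
    refine ⟨c 0, ?_⟩
    simp only [Pi.sub_apply, Pi.smul_apply, smul_eq_mul, Matrix.cons_val_zero, mul_zero,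
      sub_zero] at this
    linarith
  -- `V 1` is a unit
  have hv : ∃ c : ℤ, c * V 1 = 1 := by
    obtain ⟨z, hz⟩ := (hf 4).2 (mkN 2 4 _ hE4)
    obtain ⟨c, hc, rfl⟩ := mkN_surj 1 4 z
    have hE04 : (![1, 0] : Fin 2 → ℤ) ∈ freePart dd 4 := by
      rw [mem_dd]; exact ⟨fun h => by omega, fun h => by omega⟩
    have e1 : mkN 1 4 c hc = c 0 • mkN 1 4 _ hE04 + c 1 • mkN 1 4 _ hE4 := by
      have : c = c 0 • (![1, 0] : Fin 2 → ℤ) + c 1 • (![0, 1] : Fin 2 → ℤ) := by
        funext s; revert s; rw [Fin.forall_fin_two]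
        simp
      have e2 : ∀ (c' : Fin 2 → ℤ) (hc' : c' ∈ freePart dd 4),
          c' = c 0 • (![1, 0] : Fin 2 → ℤ) + c 1 • (![0, 1] : Fin 2 → ℤ) →
          mkN 1 4 c' hc' = c 0 • mkN 1 4 _ hE04 + c 1 • mkN 1 4 _ hE4 := by
        intro c' hc' h; subst h; rfl
      exact e2 c hc this
    have e0 : mkN 1 4 _ hE04 = (NN 1).act 4 0 4 (by norm_num) (mkN 1 0 _ hE0) := by
      rw [mkN_act, mkN_eq]
      refine ⟨0, zero_mem _, ?_⟩
      rw [map_zero]
      funext s; revert s; rw [Fin.forall_fin_two]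
      constructor
      · change (0 : ℤ) = (Nat.choose ((4 : ℤ) - 0).toNat 4 : ℤ) * 1 - 1
        rfl
      · change (0 : ℤ) = (Nat.choose ((4 : ℤ) - 4).toNat 4 : ℤ) * 0 - 0
        rfl
    have hzs : ∀ (t : ℤ) (w : (NN 1).carrier 4), f.map 4 (t • w) = t • f.map 4 w :=
      fun t w => map_zsmul (homAt f 4) t w
    rw [e1, f.map_add, hzs, hzs, e0, f.comm, ← hfU, ← hfV, mkN_act] at hz
    have e3 : c 0 • mkN 2 4 (actC 4 4 U) (actC_mem 4 0 4 (by norm_num) U hU)
        + c 1 • mkN 2 4 V hV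
        = mkN 2 4 (c 0 • actC 4 4 U + c 1 • V)
          (add_mem (zsmul_mem (actC_mem 4 0 4 (by norm_num) U hU) _) (zsmul_mem hV _)) := rfl
    rw [e3, mkN_eq] at hz
    obtain ⟨b, hb, hbc⟩ := hz
    have := congrFun hbc 1
    rw [phiC_1] at this
    refine ⟨c 1, ?_⟩
    have e4 : actC 4 4 U 1 = 0 := by
      change (Nat.choose ((4 : ℤ) - 4).toNat 4 : ℤ) * U 1 = 0
      rw [hU1]; ring
    simp only [Pi.sub_apply, Pi.add_apply, Pi.smul_apply, smul_eq_mul, e4] at this
    change ((4 : ℤ) - 4) * b 1 = 1 - (c 0 * 0 + c 1 * V 1) at this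
    linarith
  -- the relation in degree 5
  have hrel : (NN 1).act 1 4 5 (by norm_num) (mkN 1 4 _ hE4)
      = (NN 1).act 5 0 5 (by norm_num) (mkN 1 0 _ hE0) := by
    rw [mkN_act, mkN_act, mkN_eq]
    refine ⟨![0, -1], ?_, ?_⟩
    · rw [mem_ee]; exact ⟨fun h => rfl, fun h => by omega⟩
    · funext s; revert s; rw [Fin.forall_fin_two]
      constructor
      · rfl
      · rfl
  have h5 := congrArg (f.map 5) hrel
  rw [f.comm, f.comm, ← hfU, ← hfV, mkN_act, mkN_act, mkN_eq] at h5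
  obtain ⟨b, hb, hbc⟩ := h5
  have h50 := congrFun hbc 0
  have h51 := congrFun hbc 1
  rw [phiC_0, Pi.sub_apply] at h50
  rw [phiC_1, Pi.sub_apply] at h51
  have a1 : actC 5 5 U 0 = U 0 := by
    change (Nat.choose ((5 : ℤ) - 0).toNat 5 : ℤ) * U 0 = U 0
    have : (Nat.choose ((5 : ℤ) - 0).toNat 5 : ℤ) = 1 := rfl
    rw [this, one_mul]
  have a2 : actC 5 5 U 1 = 0 := by
    change (Nat.choose ((5 : ℤ) - 4).toNat 5 : ℤ) * U 1 = 0
    rw [hU1, mul_zero]
  have a3 : actC 1 5 V 0 = 5 * V 0 := rfl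
  have a4 : actC 1 5 V 1 = V 1 := by
    change (Nat.choose ((5 : ℤ) - 4).toNat 1 : ℤ) * V 1 = V 1
    have : (Nat.choose ((5 : ℤ) - 4).toNat 1 : ℤ) = 1 := rfl
    rw [this, one_mul]
  rw [a1, a3] at h50
  rw [a2, a4] at h51
  have a5 : (Nat.choose (5 : ℤ).toNat 5 : ℤ) = 1 := rfl
  rw [a5] at h50
  obtain ⟨cu, hcu⟩ := hu
  obtain ⟨cv, hcv⟩ := hv
  have hu' : U 0 = 1 ∨ U 0 = -1 := by
    rcases Int.isUnit_iff.mp (IsUnit.of_mul_eq_one_right _ hcu) with h | h
    · exact Or.inl h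
    · exact Or.inr h
  have hv' : V 1 = 1 ∨ V 1 = -1 := by
    rcases Int.isUnit_iff.mp (IsUnit.of_mul_eq_one_right _ hcv) with h | h
    · exact Or.inl h
    · exact Or.inr h
  rcases hu' with h1 | h1 <;> rcases hv' with h2 | h2 <;> rw [h1] at h50 <;> rw [h2] at h51 <;>
    omega

/-- Over `ℤ` weak fp-envelopes are not unique: there are non-isomorphic finitely presented graded
`D`-modules with isomorphic truncations. -/
theorem result : ∃ (N N' : GrMod) (n : ℤ), IsFinPres N ∧ IsFinPres N' ∧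
    Isomorphic (trunc n N) (trunc n N') ∧ ¬ Isomorphic N N' :=
  ⟨NN 1, NN 2, 5, coker_fp _, coker_fp _, tail_iso, not_iso⟩

end Pool.Agent.Results.MP_c3bf79_al.NotUnique
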